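import Pool.Agent.Helper24.ON.H84.SPFinal

set_option autoImplicit false

/-!
MP_120218_co, squad ES: dilates. Definitions.
-/

open Finset
open Pool.Agent.Helper84.SP

namespace Pool.Agent.Helper24.ES

variable {ι G Q : Type*} [AddCommGroup G] [DecidableEq G] [AddCommGroup Q] [DecidableEq Q]

/-- the dilated map -/
def dil (m : ℕ) (α : ι → G) (y : ι) : G := m • α y

/-- average over the dilates `m = 1, …, M` of the mutual information of `x + m α y` and `y` -/
noncomputable def FI (M : ℕ) (α : ι → G) (X : Finset G) (D : Finset ι) : ℝ :=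
  (∑ m ∈ Icc 1 M, I (dil m α) X D) / M

/-- number of points of `X` whose class is not in `S` -/
def off (π : G →+ Q) (X : Finset G) (S : Finset Q) : ℕ := (X.filter (fun x => π x ∉ S)).card

/-- number of pairs `(x, y)` with `π x + (π (α y) - a) ∈ S` -/
def hits (π : G →+ Q) (α : ι → G) (X : Finset G) (D : Finset ι) (S : Finset Q) (a : Q) : ℕ :=
  ∑ y ∈ D, (X.filter (fun x => π x + (π (α y) - a) ∈ S)).card

end Pool.Agent.Helper24.ES
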